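import Pool.Agent.Lib.MP_05cdf2_gt.N6.NNum
import Pool.Agent.Lib.MP_05cdf2_gt.N6.NTop

/-!
# The relation of a larger region on the points below `A` is generated by the chords over `A`

`Ck A E k k'`: `k`, `k'` are outer adjacent points of two lines of `A` with the same inner class, and `E` relates them.
`dec`: an additive function which vanishes on the low pairs of `A` and on `Ck A E` vanishes on the low pairs of `E`.
`low_corr`: then it is a trivial cochain. `nu_le_span`: the number of a slab is at most the dimension of the span of the classes.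
-/

namespace TorW

open TorM TorG TorL TorN Module

variable {g : ℕ} [NeZero g]

/-- low points outside two lines with the same inner class, related by `E` -/
def Ck (A E : Hf g) (k k' : F g) : Prop := ∃ D D' l l', Sat A.E D ∧ Sat A.E D' ∧ Adj A.E D k l ∧ Adj A.E D' k' l' ∧
  k ∈ A.E.P ∧ k' ∈ A.E.P ∧ A.E.S l l' ∧ E.E.S k k'

/-- the line behind a point of the class of `a` -/
theorem line_of (A : Hf g) {a b x y : F g} (hab : A.E.S a b) (ha : a ∉ A.E.P) (hx : x ∈ A.E.P)
    (hcr : Cr a b x y) : ∃ D k l, Sat A.E D ∧ Adj A.E D k l ∧ k ∈ A.E.P ∧ A.E.S l a ∧ x ∉ D ∧ y ∈ D := by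
  have hax : ¬ A.E.S a x := fun h => ha ((GP.col h).2 hx)
  have hg := gap_sat (E := A.E) hax
  obtain ⟨k, l, hkl⟩ := exists_adj A.lf hg
  have h1 := hkl.eq_gap_of_mem A.lf hg (mem_gap_self hax)
  have h2 : A.E.S k a := gap_inj (y := x) (D := gap A.E a x) hkl.out (notMem_gap (GP.refl a)) h1 rfl
  have hkP : k ∉ A.E.P := fun h => ha ((GP.col h2).1 h)
  have hlP : l ∈ A.E.P := by
    by_contra h
    exact hkP (hkl.col.2 h)
  refine ⟨(gap A.E a x)ᶜ, l, k, hg.compl, hkl.compl, hlP, h2, fun h => h (mem_gap_self hax), ?_⟩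
  intro h
  exact h.2 a b (GP.refl a) hab hcr

/-- a line between `x` and `k` separates `x` from `y` -/
theorem sep_of_sep (A : Hf g) {a b x y k l : F g} {D D' : Set (F g)} (hab : A.E.S a b) (hcr : Cr a b x y)
    (hD : Sat A.E D) (hkl : Adj A.E D k l) (hla : A.E.S l a) (hx : x ∉ D)
    (hD' : Sat A.E D') (h : ¬ (x ∈ D' ↔ k ∈ D')) : ¬ (x ∈ D' ↔ y ∈ D') := by
  have h1 : D' ≠ D := by
    rintro rfl
    exact h (iff_of_false hx hkl.out)
  have h2 : D' ≠ Dᶜ := by
    rintro rfl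
    exact h (iff_of_true hx hkl.out)
  have h3 := hkl.only A.lf hD hD' h1 h2
  have h4 := hD'.sat _ _ hla
  have h5 := hD'.sat _ _ hab
  intro h6
  by_cases hxD : x ∈ D'
  · have hk : k ∉ D' := fun hh => h (iff_of_true hxD hh)
    have ha : a ∉ D' := fun hh => hk (h3.2 (h4.2 hh))
    have hb : b ∉ D' := fun hh => ha (h5.2 hh)
    exact hD'.cvx x hxD y (h6.1 hxD) a ha b hb (cr_comm.1 hcr)
  · have hk : k ∈ D' := by
      by_contra hh
      exact h (iff_of_false hxD hh)
    have ha : a ∈ D' := h4.1 (h3.1 hk)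
    have hb : b ∈ D' := h5.1 ha
    exact hD'.cvx a ha b hb x hxD y (fun hh => hxD (h6.2 hh)) hcr

theorem dec_aux {A E : Hf g} (hAE : A ≤ E) {V : Type} [AddCommGroup V] {f : F g → F g → V}
    (hf : ∀ x y z, f x y + f y z = f x z) (h1 : ∀ x y, x ∈ A.E.P → A.E.S x y → f x y = 0)
    (h2 : ∀ k k', Ck A E k k' → f k k' = 0) : ∀ (n : ℕ) (x y : F g),
      {D | Ln A.E D ∧ ¬ (x ∈ D ↔ y ∈ D)}.ncard ≤ n → x ∈ A.E.P → y ∈ A.E.P → E.E.S x y → f x y = 0 := by
  intro n
  induction n with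
  | zero =>
    intro x y hn hx hy _
    refine h1 x y hx ((S_iff_ln A.lf).2 fun D hD => ?_)
    by_contra h
    have hfin : {D | Ln A.E D ∧ ¬ (x ∈ D ↔ y ∈ D)}.Finite := LnS_lf A.lf x y
    have h3 : {D | Ln A.E D ∧ ¬ (x ∈ D ↔ y ∈ D)} = ∅ := (Set.ncard_eq_zero hfin).1 (by omega)
    have h4 : D ∈ {D | Ln A.E D ∧ ¬ (x ∈ D ↔ y ∈ D)} := ⟨hD, h⟩
    rw [h3] at h4
    exact h4
  | succ n ih =>
    intro x y hn hx hy hxy
    by_cases hS : A.E.S x y
    · exact h1 x y hx hS
    have h3 := mt (A.E.iff x y).2 hS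
    have h4 : ∃ a b, A.E.S a b ∧ (a ∈ A.E.P ↔ x ∉ A.E.P) ∧ Cr a b x y := by
      by_contra hcon
      refine h3 ⟨iff_of_true hx hy, fun a b hab hc hcr => hcon ⟨a, b, hab, hc, hcr⟩⟩
    obtain ⟨a, b, hab, hc, hcr⟩ := h4
    have ha : a ∉ A.E.P := fun h => (hc.1 h) hx
    have hcr' : Cr a b y x := cr_swap2.1 hcr
    obtain ⟨D1, k1, l1, s1, a1, p1, la1, hx1, hy1⟩ := line_of A hab ha hx hcr
    obtain ⟨D2, k2, l2, s2, a2, p2, la2, hy2, hx2⟩ := line_of A hab ha hy hcr'
    have o1 := (A.kg.orb_out s1 a1).mono hAE p1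
    have o2 := (A.kg.orb_out s2 a2).mono hAE p2
    have e1 : E.E.S k1 x := o1.cross (A.kg.wcut s1) hxy hx1 hy1
    have e2 : E.E.S k2 y := o2.cross (A.kg.wcut s2) (GP.symm hxy) hy2 hx2
    have e3 : E.E.S k1 k2 := GP.trans e1 (GP.trans hxy (GP.symm e2))
    have hfin : {D | Ln A.E D ∧ ¬ (x ∈ D ↔ y ∈ D)}.Finite := LnS_lf A.lf x y
    have c1 : {D | Ln A.E D ∧ ¬ (x ∈ D ↔ k1 ∈ D)}.ncard ≤ n := by
      have h5 : {D | Ln A.E D ∧ ¬ (x ∈ D ↔ k1 ∈ D)} ⊂ {D | Ln A.E D ∧ ¬ (x ∈ D ↔ y ∈ D)} := by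
        refine ⟨fun D hD => ⟨hD.1, sep_of_sep A hab hcr s1 a1 la1 hx1 hD.1.1 hD.2⟩, fun h => ?_⟩
        have h6 := h (show D1 ∈ {D | Ln A.E D ∧ ¬ (x ∈ D ↔ y ∈ D)} from
          ⟨⟨s1, k1, l1, a1, p1⟩, fun hh => hx1 (hh.2 hy1)⟩)
        exact h6.2 (iff_of_false hx1 a1.out)
      have := Set.ncard_lt_ncard h5 hfin
      omega
    have c2 : {D | Ln A.E D ∧ ¬ (y ∈ D ↔ k2 ∈ D)}.ncard ≤ n := by
      have h5 : {D | Ln A.E D ∧ ¬ (y ∈ D ↔ k2 ∈ D)} ⊂ {D | Ln A.E D ∧ ¬ (x ∈ D ↔ y ∈ D)} := by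
        refine ⟨fun D hD => ⟨hD.1, fun hh => sep_of_sep A hab hcr' s2 a2 la2 hy2 hD.1.1 hD.2 hh.symm⟩, fun h => ?_⟩
        have h6 := h (show D2 ∈ {D | Ln A.E D ∧ ¬ (x ∈ D ↔ y ∈ D)} from
          ⟨⟨s2, k2, l2, a2, p2⟩, fun hh => hy2 (hh.1 hx2)⟩)
        exact h6.2 (iff_of_false hy2 a2.out)
      have := Set.ncard_lt_ncard h5 hfin
      omega
    have f1 := ih x k1 c1 hx p1 (GP.symm e1)
    have f2 := ih y k2 c2 hy p2 (GP.symm e2)
    have f3 := h2 k1 k2 ⟨D1, D2, l1, l2, s1, s2, a1, a2, p1, p2, GP.trans la1 (GP.symm la2), e3⟩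
    have f0 : f y y = 0 := by
      have := hf y y y
      exact left_eq_add.1 this.symm
    have f4 : f k2 y = 0 := by
      have := hf y k2 y
      rwa [f2, zero_add, f0] at this
    rw [← hf x k1 y, f1, zero_add, ← hf k1 k2 y, f3, f4, add_zero]

/-- **decomposition** -/
theorem dec {A E : Hf g} (hAE : A ≤ E) {V : Type} [AddCommGroup V] {f : F g → F g → V}
    (hf : ∀ x y z, f x y + f y z = f x z) (h1 : ∀ x y, x ∈ A.E.P → A.E.S x y → f x y = 0)
    (h2 : ∀ k k', Ck A E k k' → f k k' = 0) {x y : F g} (hx : x ∈ A.E.P) (hy : y ∈ A.E.P) (hxy : E.E.S x y) :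
    f x y = 0 := dec_aux hAE hf h1 h2 _ x y le_rfl hx hy hxy

/-- some class meets the points below `A` and the top level of `E` -/
def Meet (A E : Hf g) : Prop := ∃ u v, u ∈ A.E.P ∧ ph v = E.J ∧ E.E.S u v

/-- **correction at the middle level** -/
theorem low_corr {A E : Hf g} (hAE : A ≤ E) (hJ : E.J = A.J ∨ (E.J = A.J + 1 ∧ Meet A E))
    {f : F g → F g → ℚ} (hf : f ∈ ZZ A E) (h0 : ∀ x y, x ∈ A.E.P → y ∈ A.E.P → E.E.S x y → f x y = 0) :
    f ∈ ZZ E E ⊔ MM A E := by
  rcases hJ with hJ | ⟨hJ, u, v, hu, hv, huv⟩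
  · refine Submodule.mem_sup_left (mem_ZE.2 ⟨hf.1, fun x y hxy => ?_⟩)
    by_cases hx : x ∈ E.E.P
    · have hy := (GP.col hxy).1 hx
      refine h0 x y ?_ ?_ hxy
      · rw [A.lev, ← hJ, ← E.lev]
        exact hx
      · rw [A.lev, ← hJ, ← E.lev]
        exact hy
    · exact hf.2.2 x y hx hxy
  · have he : ee (g := g) E.J ∈ MM A E := Submodule.subset_span ⟨E.J, by omega, le_rfl, rfl⟩
    set q := f u v with hq
    have key : f - q • ee (g := g) E.J ∈ ZZ E E := by
      have hm : f - q • ee (g := g) E.J ∈ ZZ A E :=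
        sub_mem hf (Submodule.smul_mem _ q (MM_le_ZZ A E he))
      have low : ∀ x y, x ∈ A.E.P → y ∈ A.E.P → E.E.S x y → (f - q • ee (g := g) E.J) x y = 0 := by
        intro x y hx hy hxy
        show f x y - q * ee (g := g) E.J x y = 0
        rw [h0 x y hx hy hxy, ee_zero, mul_zero, sub_zero]
        · have := (A.lev x).1 hx
          omega
        · have := (A.lev y).1 hy
          omega
      have mid : ∀ x y, x ∈ A.E.P → ph y = E.J → E.E.S x y → (f - q • ee (g := g) E.J) x y = 0 := by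
        intro x y hx hy hxy
        have hk : ph (y * v⁻¹) = 0 := by
          rw [ph_mul, ph_inv, hy, hv, add_neg_cancel]
        have h1 : E.E.S (y * v⁻¹ * u) y := by
          have := (E.S_mul hk).2 huv
          rwa [inv_mul_cancel_right] at this
        have h2 : y * v⁻¹ * u ∈ A.E.P := (A.kg.P_mul hk).2 hu
        have h3 := low x _ hx h2 (GP.trans hxy (GP.symm h1))
        have h4 := cc_add hm.1 x (y * v⁻¹ * u) y
        rw [h3, zero_add] at h4
        rw [← h4]
        have h5 := cc_K hm.1 hk u v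
        rw [inv_mul_cancel_right] at h5
        rw [h5]
        show f u v - q * ee (g := g) E.J u v = 0
        have h6 : ee (g := g) E.J u v = 1 := by
          unfold ee
          rw [if_pos hv, if_neg, sub_zero]
          have := (A.lev u).1 hu
          omega
        rw [h6, mul_one, ← hq, sub_self]
      refine mem_ZE.2 ⟨hm.1, fun x y hxy => ?_⟩
      by_cases hx : x ∈ E.E.P
      · have hy := (GP.col hxy).1 hx
        have tri : ∀ z, z ∈ E.E.P → z ∈ A.E.P ∨ ph z = E.J := by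
          intro z hz
          rw [E.lev] at hz
          rw [A.lev]
          omega
        rcases tri x hx with h1 | h1
        · rcases tri y hy with h2 | h2
          · exact low x y h1 h2 hxy
          · exact mid x y h1 h2 hxy
        · rcases tri y hy with h2 | h2
          · rw [cc_symm hm.1 y x, mid y x h2 h1 (GP.symm hxy), neg_zero]
          · have hk : ph (x * v⁻¹) = 0 := by
              rw [ph_mul, ph_inv, h1, hv, add_neg_cancel]
            have h3 : E.E.S (x * v⁻¹ * u) x := by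
              have := (E.S_mul hk).2 huv
              rwa [inv_mul_cancel_right] at this
            have h4 : x * v⁻¹ * u ∈ A.E.P := (A.kg.P_mul hk).2 hu
            rw [← cc_add hm.1 x (x * v⁻¹ * u) y, cc_symm hm.1 (x * v⁻¹ * u) x, mid _ x h4 h1 h3,
              mid _ y h4 h2 (GP.trans h3 hxy), neg_zero, add_zero]
      · exact hm.2.2 x y hx hxy
    have e : f = (f - q • ee (g := g) E.J) + q • ee (g := g) E.J := by rw [sub_add_cancel]
    rw [e]
    exact add_mem (Submodule.mem_sup_left key) (Submodule.mem_sup_right (Submodule.smul_mem _ q he))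

/-- evaluation -/
def evz (A E : Hf g) (x y : F g) : Module.Dual ℚ (ZZ A E) where
  toFun f := f.1 x y
  map_add' _ _ := rfl
  map_smul' _ _ := rfl

theorem evz_apply (A E : Hf g) (x y : F g) (f : ZZ A E) : evz A E x y f = f.1 x y := rfl

/-- the span of the classes of the pairs in `Wp` -/
def spW (A E : Hf g) (Wp : F g → F g → Prop) : Submodule ℚ (Module.Dual ℚ (ZZ A E)) :=
  Submodule.span ℚ {v | ∃ x y, Wp x y ∧ v = evz A E x y}

instance fd_dual (A E : Hf g) : FiniteDimensional ℚ (Module.Dual ℚ (ZZ A E)) := inferInstance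

/-- **the number of a slab is at most the dimension of the span of the classes** -/
theorem nu_le_span {A E : Hf g} (hAE : A ≤ E) {Wp : F g → F g → Prop}
    (h : ∀ f ∈ ZZ A E, (∀ x y, Wp x y → f x y = 0) → f ∈ ZZ E E ⊔ MM A E) :
    nu A E ≤ finrank ℚ (spW A E Wp) := by
  have h1 := nu_le hAE (finrank_ZE E)
  have h2 := Subspace.finrank_add_finrank_dualCoannihilator_eq (spW A E Wp)
  have h3 : finrank ℚ (spW A E Wp).dualCoannihilator ≤
      finrank ℚ (ZZ E E ⊔ MM A E : Submodule ℚ (F g → F g → ℚ)) := by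
    haveI : Module.Finite ℚ (ZZ E E ⊔ MM A E : Submodule ℚ (F g → F g → ℚ)) :=
      fd_of_le (A := A) (B := E) (sup_le (ZZ_mono hAE le_rfl) (MM_le_ZZ A E))
    let φ : (spW A E Wp).dualCoannihilator →ₗ[ℚ] (ZZ E E ⊔ MM A E : Submodule ℚ (F g → F g → ℚ)) :=
      { toFun := fun f => ⟨f.1.1, h f.1.1 f.1.2 fun x y hxy => by
          have h4 := f.2
          rw [Submodule.mem_dualCoannihilator] at h4
          exact h4 _ (Submodule.subset_span ⟨x, y, hxy, rfl⟩)⟩
        map_add' := fun _ _ => rfl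
        map_smul' := fun _ _ => rfl }
    refine LinearMap.finrank_le_finrank_of_injective (f := φ) ?_
    intro a b hab
    exact Subtype.ext (Subtype.ext (congrArg (fun z => z.1) hab))
  omega

end TorW
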