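import Pool.Agent.Lib.MP_05cdf2_gt.V6.VFull

/-!
# Finite filling systems of the relation of a region on the base points of a piece
-/

namespace TorW

open TorM TorG TorL TorH TorN

variable {g : ℕ} [NeZero g]

/-- `E`-related points of `Ω` -/
def EO (E : Hf g) (Ω : Set (F g)) (x y : F g) : Prop := x = y ∨ (x ∈ Ω ∧ y ∈ Ω ∧ E.E.S x y)

theorem ne_EO {K : Subgroup (F g)} (hK : ∀ k ∈ K, ph k = 0) {Ω : Set (F g)} (hΩ : ∀ k ∈ K, ∀ x ∈ Ω, k * x ∈ Ω)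
    (E : Hf g) : NE K (EO E Ω) where
  refl x := Or.inl rfl
  symm {x y} h := by
    rcases h with h | h
    · exact Or.inl h.symm
    · exact Or.inr ⟨h.2.1, h.1, GP.symm h.2.2⟩
  trans {x y z} h h' := by
    rcases h with rfl | h
    · exact h'
    · rcases h' with rfl | h'
      · exact Or.inr h
      · exact Or.inr ⟨h.1, h'.2.1, GP.trans h.2.2 h'.2.2⟩
  smul k {x y} h := by
    rcases h with rfl | h
    · exact Or.inl rfl
    · exact Or.inr ⟨hΩ k k.2 _ h.1, hΩ k k.2 _ h.2.1, (E.S_mul (hK k k.2)).2 h.2.2⟩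
  noncr {a b x y} h h' hc := by
    rcases h with rfl | h
    · exact ((cr_ne hc).2.2.2.2.2 rfl).elim
    · rcases h' with rfl | h'
      · exact ((cr_ne hc).1 rfl).elim
      · exact Or.inr ⟨h'.1, h.1, GP.noncr h.2.2 h'.2.2 hc⟩

variable {A E B : Hf g} {k0 l0 : F g}

/-- the stabiliser of a smaller piece -/
theorem kp_le (hEB : E ≤ B) {x0 l : F g} (hx0 : x0 ∈ E.E.P) (hl : A.E.S l l0) (hxB : B.E.S x0 k0) {k : F g} :
    k ∈ KP A E x0 l ↔ k ∈ KP A B k0 l0 ∧ E.E.S x0 (k * x0) := by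
  constructor
  · rintro ⟨h1, h2, h3⟩
    refine ⟨⟨h1, ?_, ?_⟩, h3⟩
    · exact GP.trans (GP.symm hl) (GP.trans h2 ((A.S_mul h1).2 hl))
    · exact GP.trans (GP.symm hxB) (GP.trans (hEB.2 _ _ hx0 h3) ((B.S_mul h1).2 hxB))
  · rintro ⟨⟨h1, h2, -⟩, h3⟩
    exact ⟨h1, GP.trans hl (GP.trans h2 ((A.S_mul h1).2 (GP.symm hl))), h3⟩

theorem fo_cls (hEB : E ≤ B) {x0 l : F g} (hx0 : x0 ∈ E.E.P) (hl : A.E.S l l0) (hxB : B.E.S x0 k0)
    {Ω : Set (F g)} (hf : FO (KP A B k0 l0) (· ∈ Ω)) :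
    FO (KP A E x0 l) (· ∈ {y | y ∈ Ω ∧ E.E.S x0 y}) := by
  obtain ⟨Q, hQ⟩ := hf
  have key : ∀ q ∈ (Q : Set (F g)), FO (KP A E x0 l) fun y => E.E.S x0 y ∧ ∃ k ∈ KP A B k0 l0, k * q = y := by
    intro q _
    refine FO.one ?_
    rintro z z' ⟨h1, k, hk, rfl⟩ ⟨h2, k', hk', rfl⟩
    have e : k * q * (k' * q)⁻¹ = k * k'⁻¹ := by group
    have hkk : k * k'⁻¹ ∈ KP A B k0 l0 := (KP A B k0 l0).mul_mem hk ((KP A B k0 l0).inv_mem hk')
    rw [e, kp_le hEB hx0 hl hxB]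
    refine ⟨hkk, ?_⟩
    have h3 := (E.S_mul hkk.1).2 (GP.symm h2)
    have e2 : k * k'⁻¹ * (k' * q) = k * q := by group
    rw [e2] at h3
    exact GP.trans h1 h3
  refine FO.sub ?_ (FO.fin Q.finite_toSet key)
  rintro y ⟨h1, h2⟩
  obtain ⟨q, hq, k, hk, e⟩ := hQ y h1
  exact ⟨q, hq, h2, k, hk, e⟩

theorem fill_cls (hAE : A ≤ E) (hEB : E ≤ B) {x0 l : F g} {D : Set (F g)} (hD : Ln A.E D)
    (hAdj : Adj A.E D x0 l) (hl : A.E.S l l0) (hxB : B.E.S x0 k0)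
    {Ω : Set (F g)} (hΩ : ∀ k ∈ KP A B k0 l0, ∀ x ∈ Ω, k * x ∈ Ω) (hf : FO (KP A B k0 l0) (· ∈ Ω)) :
    ∃ σ : Finset (Arc (KP A E x0 l) (F g)), Sy (CE (Es {y | y ∈ Ω ∧ E.E.S x0 y})) σ ∧
      Fi (Es {y | y ∈ Ω ∧ E.E.S x0 y}) σ := by
  have hx0 : x0 ∈ E.E.P := hAE.1 (ln_adj_mem A.lf hD hAdj).1
  refine fill_S hAE hD hAdj ?_ (fo_cls hEB hx0 hl hxB hf)
  intro k hk y hy
  have hk' := (kp_le hEB hx0 hl hxB).1 hk
  exact ⟨hΩ k hk'.1 y hy.1, GP.trans hk'.2 ((E.S_mul hk'.1.1).2 hy.2)⟩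

/-- **finite filling system on the base points of a piece** -/
theorem fill_piece (hAE : A ≤ E) (hEB : E ≤ B) {Ω : Set (F g)}
    (hΩ : ∀ k ∈ KP A B k0 l0, ∀ x ∈ Ω, k * x ∈ Ω) (hf : FO (KP A B k0 l0) (· ∈ Ω))
    (hp : ∀ x ∈ Ω, ∃ D l, Ln A.E D ∧ Adj A.E D x l ∧ A.E.S l l0 ∧ B.E.S x k0) :
    ∃ σ : Finset (Arc (KP A B k0 l0) (F g)), Sy (CE (EO E Ω)) σ ∧ Fi (EO E Ω) σ := by
  classical
  have hNE : NE (KP A B k0 l0) (EO E Ω) := ne_EO (K := KP A B k0 l0) (fun k hk => hk.1) hΩ E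
  obtain ⟨Q, hQ⟩ := hf
  -- the classes modulo `K`
  let R : F g → F g → Prop := fun x y => ∃ k ∈ KP A B k0 l0, E.E.S x (k * y)
  have Rsymm : ∀ {x y}, R x y → R y x := by
    rintro x y ⟨k, hk, h⟩
    refine ⟨k⁻¹, (KP A B k0 l0).inv_mem hk, ?_⟩
    have := (E.S_mul ((KP A B k0 l0).inv_mem hk).1).2 h
    rw [inv_mul_cancel_left] at this
    exact GP.symm this
  have Rtrans : ∀ {x y z}, R x y → R y z → R x z := by
    rintro x y z ⟨k, hk, h⟩ ⟨k', hk', h'⟩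
    refine ⟨k * k', (KP A B k0 l0).mul_mem hk hk', ?_⟩
    rw [mul_assoc]
    exact GP.trans h ((E.S_mul hk.1).2 h')
  let P : F g → F g → Prop := fun x y => y ∈ Q ∧ y ∈ Ω ∧ R y x
  let cr : F g → F g := fun x => Classical.epsilon (P x)
  have cr_eq : ∀ {x x'}, R x x' → cr x = cr x' := by
    intro x x' h
    have : P x = P x' := by
      funext y
      exact propext ⟨fun hh => ⟨hh.1, hh.2.1, Rtrans hh.2.2 h⟩, fun hh => ⟨hh.1, hh.2.1, Rtrans hh.2.2 (Rsymm h)⟩⟩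
    show Classical.epsilon (P x) = Classical.epsilon (P x')
    rw [this]
  have hQΩ : ∀ x ∈ Ω, ∃ q ∈ Q, q ∈ Ω ∧ R q x := by
    intro x hx
    obtain ⟨q, hq, k, hk, e⟩ := hQ x hx
    refine ⟨q, hq, ?_, k⁻¹, (KP A B k0 l0).inv_mem hk, ?_⟩
    · have := hΩ k⁻¹ ((KP A B k0 l0).inv_mem hk) x hx
      rwa [← e, inv_mul_cancel_left] at this
    · rw [← e, inv_mul_cancel_left]
      exact GP.refl _
  have cr_spec : ∀ x ∈ Ω, cr x ∈ Q ∧ cr x ∈ Ω ∧ R (cr x) x := by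
    intro x hx
    obtain ⟨q, hq, h1, h2⟩ := hQΩ x hx
    exact Classical.epsilon_spec (p := P x) ⟨q, hq, h1, h2⟩
  have cr_cr : ∀ x ∈ Ω, cr (cr x) = cr x := fun x hx => cr_eq (cr_spec x hx).2.2
  -- the systems
  have ex : ∀ x0 : F g, ∃ τ : Finset (F g × F g), x0 ∈ Ω →
      (∀ c ∈ τ, Es {y | y ∈ Ω ∧ E.E.S x0 y} c.1 c.2) ∧
      (∀ c ∈ τ, ∀ c' ∈ τ, ∀ k ∈ KP A B k0 l0, E.E.S x0 (k * x0) → ¬ Cr c.1 c.2 (k * c'.1) (k * c'.2)) ∧
      (∀ x y, x ∈ Ω → y ∈ Ω → E.E.S x0 x → E.E.S x0 y →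
        Relation.ReflTransGen (fun a b => ∃ c ∈ τ, ∃ k ∈ KP A B k0 l0,
          (k * c.1 = a ∧ k * c.2 = b) ∨ (k * c.1 = b ∧ k * c.2 = a)) x y) := by
    intro x0
    by_cases hx0 : x0 ∈ Ω
    · obtain ⟨D, l, h1, h2, h3, h4⟩ := hp x0 hx0
      have hx0P : x0 ∈ E.E.P := hAE.1 (ln_adj_mem A.lf h1 h2).1
      obtain ⟨σ, s1, s2⟩ := fill_cls hAE hEB h1 h2 h3 h4 hΩ ⟨Q, hQ⟩
      have kp : ∀ {k}, k ∈ KP A E x0 l ↔ k ∈ KP A B k0 l0 ∧ E.E.S x0 (k * x0) := kp_le hEB hx0P h3 h4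
      have hNE' : NE (KP A E x0 l) (Es {y | y ∈ Ω ∧ E.E.S x0 y}) := by
        refine ne_Es ?_
        intro k hk y hy
        have hk' := kp.1 hk
        exact ⟨hΩ k hk'.1 y hy.1, GP.trans hk'.2 ((E.S_mul hk'.1.1).2 hy.2)⟩
      refine ⟨σ.image rep, fun _ => ⟨?_, ?_, ?_⟩⟩
      · intro c hc
        obtain ⟨a, ha, rfl⟩ := Finset.mem_image.1 hc
        exact (s1 a ha a ha).2.1 _ _ (arc_rep a)
      · intro c hc c' hc' k hk hkx hcr
        obtain ⟨a, ha, rfl⟩ := Finset.mem_image.1 hc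
        obtain ⟨a', ha', rfl⟩ := Finset.mem_image.1 hc'
        have hk' : k ∈ KP A E x0 l := kp.2 ⟨hk, hkx⟩
        refine (s1 a ha a' ha').1 _ _ (k * (rep a').1) (k * (rep a').2) (arc_rep a) ?_ hcr
        have := arc_smul (K := KP A E x0 l) ⟨k, hk'⟩ (rep a').1 (rep a').2
        rw [arc_rep] at this
        exact this
      · intro x y hx hy h5 h6
        have h7 := s2 x y (Or.inr ⟨⟨hx, h5⟩, ⟨hy, h6⟩⟩)
        refine Relation.ReflTransGen.mono ?_ _ _ h7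
        intro a b hab
        refine ⟨rep (arc (KP A E x0 l) a b), Finset.mem_image_of_mem _ hab, ?_⟩
        have h8 := arc_rep (arc (KP A E x0 l) a b)
        rw [arc_eq] at h8
        obtain ⟨k, hk⟩ := h8
        refine ⟨k, (kp.1 k.2).1, ?_⟩
        rw [csF_smul, csF_smul] at hk
        exact hk
    · exact ⟨∅, fun h => (hx0 h).elim⟩
  choose τ hτ using ex
  refine ⟨((Q.filter fun q => q ∈ Ω).image cr).biUnion fun x0 => (τ x0).image fun c => arc (KP A B k0 l0) c.1 c.2, ?_, ?_⟩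
  · intro a ha b hb
    obtain ⟨x0, hx0, ha⟩ := Finset.mem_biUnion.1 ha
    obtain ⟨y0, hy0, hb⟩ := Finset.mem_biUnion.1 hb
    obtain ⟨c, hc, rfl⟩ := Finset.mem_image.1 ha
    obtain ⟨d, hd, rfl⟩ := Finset.mem_image.1 hb
    obtain ⟨q, hq, rfl⟩ := Finset.mem_image.1 hx0
    obtain ⟨q', hq', rfl⟩ := Finset.mem_image.1 hy0
    have hqΩ := (Finset.mem_filter.1 hq).2
    have hqΩ' := (Finset.mem_filter.1 hq').2
    have sx := cr_spec q hqΩ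
    have sy := cr_spec q' hqΩ'
    obtain ⟨t1, t2, t3⟩ := hτ (cr q) sx.2.1
    obtain ⟨t1', t2', t3'⟩ := hτ (cr q') sy.2.1
    have r1 : EO E Ω c.1 c.2 := by
      rcases t1 c hc with h | ⟨h, h'⟩
      · exact Or.inl h
      · exact Or.inr ⟨h.1, h'.1, GP.trans (GP.symm h.2) h'.2⟩
    have r2 : EO E Ω d.1 d.2 := by
      rcases t1' d hd with h | ⟨h, h'⟩
      · exact Or.inl h
      · exact Or.inr ⟨h.1, h'.1, GP.trans (GP.symm h.2) h'.2⟩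
    refine ⟨?_, (in_iff hNE).2 r1, (in_iff hNE).2 r2⟩
    have nocr : ∀ k ∈ KP A B k0 l0, ¬ Cr c.1 c.2 (k * d.1) (k * d.2) := by
      intro k hk hcr
      have n1 := (cr_ne hcr).1
      have n2 : d.1 ≠ d.2 := fun h => (cr_ne hcr).2.2.2.2.2 (by rw [h])
      rcases t1 c hc with h | ⟨h, h'⟩
      · exact n1 h
      · rcases t1' d hd with m | ⟨m, m'⟩
        · exact n2 m
        · have e1 : E.E.S c.1 (k * d.1) := by
            refine GP.noncr (E := E.E) (x := k * d.1) (y := k * d.2) ?_ (GP.trans (GP.symm h.2) h'.2) hcr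
            exact (E.S_mul hk.1).2 (GP.trans (GP.symm m.2) m'.2)
          have e2 : R (cr q) (cr q') := ⟨k, hk, GP.trans h.2 (GP.trans e1 ((E.S_mul hk.1).2 (GP.symm m.2)))⟩
          have e3 : cr q = cr q' := by
            have := cr_eq e2
            rwa [cr_cr q hqΩ, cr_cr q' hqΩ'] at this
          obtain ⟨k', hk', e4⟩ := e2
          have e5 : E.E.S (cr q) (k * cr q) := by
            have e6 : E.E.S (cr q) (k * cr q') := GP.trans h.2 (GP.trans e1 ((E.S_mul hk.1).2 (GP.symm m.2)))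
            rwa [← e3] at e6
          rw [← e3] at hd
          exact t2 c hc d hd k hk e5 hcr
    rw [co_iff]
    intro z w he hcr
    rw [arc_eq] at he
    obtain ⟨k, ⟨e1, e2⟩ | ⟨e1, e2⟩⟩ := he
    · rw [csF_smul] at e1 e2
      refine nocr k⁻¹ ((KP A B k0 l0).inv_mem k.2) ?_
      rw [← e1, ← e2, inv_mul_cancel_left, inv_mul_cancel_left]
      exact hcr
    · rw [csF_smul] at e1 e2
      refine nocr k⁻¹ ((KP A B k0 l0).inv_mem k.2) ?_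
      rw [← e1, ← e2, inv_mul_cancel_left, inv_mul_cancel_left]
      exact cr_swap2.1 hcr
  · rintro x y (rfl | ⟨hx, hy, hxy⟩)
    · exact Relation.ReflTransGen.refl
    · have sx := cr_spec x hx
      obtain ⟨k, hk, h1⟩ := sx.2.2
      obtain ⟨t1, t2, t3⟩ := hτ (cr x) sx.2.1
      have h2 := t3 (k * x) (k * y) (hΩ k hk x hx) (hΩ k hk y hy) h1 (GP.trans h1 ((E.S_mul hk.1).2 hxy))
      have hmem : cr x ∈ (Q.filter fun q => q ∈ Ω).image cr := by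
        obtain ⟨q, hq, h3, h4⟩ := hQΩ x hx
        exact Finset.mem_image.2 ⟨q, Finset.mem_filter.2 ⟨hq, h3⟩, cr_eq h4⟩
      have h3 : Gn (((Q.filter fun q => q ∈ Ω).image cr).biUnion fun x0 => (τ x0).image fun c =>
          arc (KP A B k0 l0) c.1 c.2) (k * x) (k * y) := by
        refine Relation.ReflTransGen.mono ?_ _ _ h2
        rintro a b ⟨c, hc, k', hk', hh⟩
        refine Finset.mem_biUnion.2 ⟨cr x, hmem, Finset.mem_image.2 ⟨c, hc, ?_⟩⟩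
        rw [arc_eq]
        exact ⟨⟨k', hk'⟩, hh⟩
      have h4 := h3.smul (K := KP A B k0 l0) ⟨k⁻¹, (KP A B k0 l0).inv_mem hk⟩
      rw [csF_smul, csF_smul] at h4
      have e : ∀ z : F g, k⁻¹ * (k * z) = z := fun z => inv_mul_cancel_left k z
      rw [e, e] at h4
      exact h4

end TorW
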