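import Pool.Agent.Lib.MP_05cdf2_gt.V6.VPos

/-!
# Finitely many orbits of edges change the position
-/

namespace TorW

open TorM TorG TorL TorH

variable {g : ℕ} [NeZero g]

/-- finitely many orbits -/
def FO (K : Subgroup (F g)) (Z : F g → Prop) : Prop := ∃ Q : Finset (F g), ∀ z, Z z → ∃ q ∈ Q, ∃ k ∈ K, k * q = z

section
omit [NeZero g]

theorem FO.sub {K : Subgroup (F g)} {Z Z' : F g → Prop} (h : ∀ z, Z z → Z' z) (h' : FO K Z') : FO K Z := by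
  obtain ⟨Q, hQ⟩ := h'
  exact ⟨Q, fun z hz => hQ z (h z hz)⟩

theorem FO.or {K : Subgroup (F g)} {Z Z' : F g → Prop} (h : FO K Z) (h' : FO K Z') : FO K fun z => Z z ∨ Z' z := by
  classical
  obtain ⟨Q, hQ⟩ := h
  obtain ⟨Q', hQ'⟩ := h'
  refine ⟨Q ∪ Q', ?_⟩
  rintro z (hz | hz)
  · obtain ⟨q, hq, hk⟩ := hQ z hz
    exact ⟨q, Finset.mem_union_left _ hq, hk⟩
  · obtain ⟨q, hq, hk⟩ := hQ' z hz
    exact ⟨q, Finset.mem_union_right _ hq, hk⟩

theorem FO.one {K : Subgroup (F g)} {Z : F g → Prop} (h : ∀ z z', Z z → Z z' → z * z'⁻¹ ∈ K) : FO K Z := by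
  by_cases hZ : ∃ z, Z z
  · obtain ⟨z0, h0⟩ := hZ
    refine ⟨{z0}, fun z hz => ⟨z0, Finset.mem_singleton_self _, z * z0⁻¹, h z z0 hz h0, ?_⟩⟩
    rw [inv_mul_cancel_right]
  · exact ⟨∅, fun z hz => (hZ ⟨z, hz⟩).elim⟩

theorem FO.fin {K : Subgroup (F g)} {ι : Type} {I : Set ι} (hI : I.Finite) {Z : ι → F g → Prop}
    (h : ∀ i ∈ I, FO K (Z i)) : FO K fun z => ∃ i ∈ I, Z i z := by
  classical
  choose! Q hQ using h
  refine ⟨hI.toFinset.biUnion Q, ?_⟩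
  rintro z ⟨i, hi, hz⟩
  obtain ⟨q, hq, hk⟩ := hQ i hi z hz
  exact ⟨q, Finset.mem_biUnion.2 ⟨i, hI.mem_toFinset.2 hi, hq⟩, hk⟩

end

/-- no side contains both points -/
def Pc (A E : Hf g) (k0 l0 z z' : F g) : Prop := ∀ H, Hd A E k0 l0 H → ¬ (z ∈ H ∧ z' ∈ H)

variable {A E : Hf g} {k0 l0 : F g}

theorem Pc.symm {z z' : F g} (h : Pc A E k0 l0 z z') : Pc A E k0 l0 z' z := fun H hH hh => h H hH ⟨hh.2, hh.1⟩

theorem Pc.mul {z z' : F g} {k : F g} (hk : k ∈ KP A E k0 l0) (h : Pc A E k0 l0 z z') :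
    Pc A E k0 l0 (k * z) (k * z') := by
  intro H hH hh
  refine h (tr k⁻¹ H) (hd_tr ((KP A E k0 l0).inv_mem hk) hH) ⟨?_, ?_⟩
  · rw [mem_tr, _root_.inv_inv]
    exact hh.1
  · rw [mem_tr, _root_.inv_inv]
    exact hh.2

theorem Pc.mul_iff {z z' : F g} {k : F g} (hk : k ∈ KP A E k0 l0) :
    Pc A E k0 l0 (k * z) (k * z') ↔ Pc A E k0 l0 z z' := by
  constructor
  · intro h
    have := h.mul ((KP A E k0 l0).inv_mem hk)
    rwa [inv_mul_cancel_left, inv_mul_cancel_left] at this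
  · exact Pc.mul hk

theorem fo_int (n : ℤ) : FO (KP A E k0 l0) fun z => ph z = n ∧ E.E.S z k0 ∧ A.E.S z l0 := by
  refine FO.one ?_
  rintro z z' ⟨h1, h2, h3⟩ ⟨h1', h2', h3'⟩
  have hk : ph (z * z'⁻¹) = 0 := by
    rw [ph_mul, ph_inv, h1, h1', add_neg_cancel]
  refine ⟨hk, ?_, ?_⟩
  · have := (A.S_mul hk).2 h3'
    rw [inv_mul_cancel_right] at this
    exact GP.trans (GP.symm h3) this
  · have := (E.S_mul hk).2 h2'
    rw [inv_mul_cancel_right] at this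
    exact GP.trans (GP.symm h2) this

theorem fo_bt (hAE : A ≤ E) (n : ℤ) (L : Set (F g)) :
    FO (KP A E k0 l0) fun z => ph z = n ∧ Bt A E k0 l0 (tr (z * t0 ^ (-n)) L) := by
  refine FO.one ?_
  rintro z z' ⟨hz, a, b, h1, h2, h3, h4⟩ ⟨hz', a', b', h1', h2', h3', h4'⟩
  set k := z * t0 ^ (-n) with hk
  set k' := z' * t0 ^ (-n) with hk'
  have pk : ph k = 0 := by
    rw [hk, ph_mul, ph_zpow, ph_t0, hz]
    ring
  have pk' : ph k' = 0 := by
    rw [hk', ph_mul, ph_zpow, ph_t0, hz']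
    ring
  have pkk : ph (k * k'⁻¹) = 0 := by rw [ph_mul, ph_inv, pk, pk', neg_zero, add_zero]
  have e : z * z'⁻¹ = k * k'⁻¹ := by
    rw [hk, hk']
    group
  have e2 : tr (k * k'⁻¹) (tr k' L) = tr k L := by
    rw [tr_tr, inv_mul_cancel_right]
  have h5 := A.kg.adj_tr pkk h2'
  rw [e2] at h5
  have h6 := Adj.out_unique A.lf h1.1 h2 h5
  have h7 := Adj.inn_unique A.lf h1.1 h2 h5
  have hP := (ln_adj_mem A.lf h1 h2).1
  rw [e]
  refine ⟨pkk, ?_, ?_⟩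
  · exact GP.trans (GP.symm h4) (GP.trans h7 ((A.S_mul pkk).2 h4'))
  · exact GP.trans (GP.symm h3) (GP.trans (hAE.2 _ _ hP h6) ((E.S_mul pkk).2 h3'))

theorem fo_tp (hAE : A ≤ E) (n : ℤ) (L : Set (F g)) :
    FO (KP A E k0 l0) fun z => ph z = n ∧ Tp A E k0 l0 (tr (z * t0 ^ (-n)) L) := by
  refine FO.one ?_
  rintro z z' ⟨hz, a, b, h1, h2, h3, h4⟩ ⟨hz', a', b', h1', h2', h3', h4'⟩
  set k := z * t0 ^ (-n) with hk
  set k' := z' * t0 ^ (-n) with hk'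
  have pk : ph k = 0 := by
    rw [hk, ph_mul, ph_zpow, ph_t0, hz]
    ring
  have pk' : ph k' = 0 := by
    rw [hk', ph_mul, ph_zpow, ph_t0, hz']
    ring
  have pkk : ph (k * k'⁻¹) = 0 := by rw [ph_mul, ph_inv, pk, pk', neg_zero, add_zero]
  have e : z * z'⁻¹ = k * k'⁻¹ := by
    rw [hk, hk']
    group
  have e2 : tr (k * k'⁻¹) (tr k' L) = tr k L := by
    rw [tr_tr, inv_mul_cancel_right]
  have h5 := E.kg.adj_tr pkk h2'
  rw [e2] at h5
  have h6 := Adj.out_unique E.lf h1.1 h2 h5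
  have h7 := Adj.inn_unique E.lf h1.1 h2 h5
  have hP := (ln_adj_mem E.lf h1 h2).2
  rw [e]
  refine ⟨pkk, ?_, ?_⟩
  · exact GP.trans (GP.symm h4) (GP.trans (S_of_le' hAE hP h7) ((A.S_mul pkk).2 h4'))
  · exact GP.trans (GP.symm h3) (GP.trans h6 ((E.S_mul pkk).2 h3'))

theorem int_lev (hk0 : k0 ∈ E.E.P) (hl0 : l0 ∉ A.E.P) {z : F g} (h1 : E.E.S z k0) (h2 : A.E.S z l0) :
    A.J < ph z ∧ ph z ≤ E.J := by
  have a := (GP.col h1).2 hk0
  have b : z ∉ A.E.P := fun h => hl0 ((GP.col h2).1 h)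
  rw [E.lev] at a
  rw [A.lev] at b
  omega

/-- **finitely many orbits of edges change the position** -/
theorem fo_edge (hAE : A ≤ E) {D0 : Set (F g)} (hD0 : Ln A.E D0) (h0 : Adj A.E D0 k0 l0) (l : Ltr g) :
    FO (KP A E k0 l0) fun z => Pc A E k0 l0 z (z * le l) := by
  obtain ⟨M1, N1, hb1⟩ := A.kg.bd
  obtain ⟨M2, N2, hb2⟩ := E.kg.bd
  have hk0 : k0 ∈ E.E.P := hAE.1 (ln_adj_mem A.lf hD0 h0).1
  have hl0 := (ln_adj_mem A.lf hD0 h0).2
  have key : ∀ n : ℤ, FO (KP A E k0 l0) fun z => ph z = n ∧ Pc A E k0 l0 z (z * le l) := by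
    intro n
    have f1 : {L | Ln A.E L ∧ ¬ (t0 ^ n ∈ L ↔ t0 ^ n * le l ∈ L)}.Finite := LnS_lf A.lf _ _
    have f2 : {L | Ln E.E L ∧ ¬ (t0 ^ n ∈ L ↔ t0 ^ n * le l ∈ L)}.Finite := LnS_lf E.lf _ _
    have g1 := FO.fin f1 (Z := fun L z => ph z = n ∧ Bt A E k0 l0 (tr (z * t0 ^ (-n)) L)) fun L _ => fo_bt hAE n L
    have g2 := FO.fin f2 (Z := fun L z => ph z = n ∧ Tp A E k0 l0 (tr (z * t0 ^ (-n)) L)) fun L _ => fo_tp hAE n L
    have g3 : FO (KP A E k0 l0) fun z => ph (z * le l) = n + ph (le l : F g) ∧ E.E.S (z * le l) k0 ∧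
        A.E.S (z * le l) l0 := by
      obtain ⟨Q, hQ⟩ := fo_int (A := A) (E := E) (k0 := k0) (l0 := l0) (n + ph (le l : F g))
      classical
      refine ⟨Q.image fun q => q * (le l)⁻¹, fun z hz => ?_⟩
      obtain ⟨q, hq, k, hk, e⟩ := hQ _ hz
      exact ⟨q * (le l)⁻¹, Finset.mem_image_of_mem _ hq, k, hk, by rw [← mul_assoc, e, mul_inv_cancel_right]⟩
    refine FO.sub ?_ ((fo_int (A := A) (E := E) (k0 := k0) (l0 := l0) n).or (g3.or (g1.or g2)))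
    rintro z ⟨hz, hpc⟩
    have e1 : z * t0 ^ (-n) * t0 ^ n = z := by
      rw [mul_assoc, ← zpow_add, neg_add_cancel, zpow_zero, mul_one]
    have pk : ph (z * t0 ^ (-n)) = 0 := by
      rw [ph_mul, ph_zpow, ph_t0, hz]
      ring
    have sep : ∀ L : Set (F g), ¬ (z ∈ L ↔ z * le l ∈ L) →
        ¬ (t0 ^ n ∈ tr (z * t0 ^ (-n))⁻¹ L ↔ t0 ^ n * le l ∈ tr (z * t0 ^ (-n))⁻¹ L) := by
      intro L hL
      rw [mem_tr, mem_tr, _root_.inv_inv, ← mul_assoc, e1]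
      exact hL
    have back : ∀ L : Set (F g), tr (z * t0 ^ (-n)) (tr (z * t0 ^ (-n))⁻¹ L) = L := by
      intro L
      rw [tr_tr, mul_inv_cancel, tr_one]
    rcases hd_pos hAE hD0 h0 z with h | ⟨H, hH, hzH⟩
    · exact Or.inl ⟨hz, h.1, h.2⟩
    · rcases hd_pos hAE hD0 h0 (z * le l) with h | _
      · right
        left
        exact ⟨by rw [ph_mul, hz], h.1, h.2⟩
      · have hzl : z * le l ∉ H := fun hh => hpc H hH ⟨hzH, hh⟩
        rcases hH with hH | hH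
        · right; right; left
          have h1 : ¬ (z ∈ Hᶜ ↔ z * le l ∈ Hᶜ) := by
            intro hh
            exact (hh.2 hzl) hzH
          refine ⟨tr (z * t0 ^ (-n))⁻¹ Hᶜ, ⟨?_, sep _ h1⟩, hz, ?_⟩
          · obtain ⟨a, b, a1, _⟩ := hH
            exact (A.kg.ln_tr (by rw [ph_inv, pk, neg_zero])).2 a1
          · rw [back]
            exact hH
        · right; right; right
          have h1 : ¬ (z ∈ H ↔ z * le l ∈ H) := fun hh => hzl (hh.1 hzH)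
          refine ⟨tr (z * t0 ^ (-n))⁻¹ H, ⟨?_, sep _ h1⟩, hz, ?_⟩
          · obtain ⟨a, b, a1, _⟩ := hH
            exact (E.kg.ln_tr (by rw [ph_inv, pk, neg_zero])).2 a1
          · rw [back]
            exact hH
  have hfin : (Set.Icc (min (min M1 M2) A.J - 1) (max (max N1 N2) E.J + 1) : Set ℤ).Finite := Set.finite_Icc _ _
  refine FO.sub ?_ (FO.fin hfin fun n _ => key n)
  intro z hz
  refine ⟨ph z, ?_, rfl, hz⟩
  have h1 := ph_le (g := g) l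
  have h2 : ph (z * le l) = ph z + ph (le l : F g) := ph_mul _ _
  rw [Set.mem_Icc]
  rcases hd_pos hAE hD0 h0 z with h | ⟨H, hH, hzH⟩
  · have := int_lev hk0 hl0 h.1 h.2
    omega
  · rcases hd_pos hAE hD0 h0 (z * le l) with h | _
    · have := int_lev hk0 hl0 h.1 h.2
      omega
    · have hzl : z * le l ∉ H := fun hh => hz H hH ⟨hzH, hh⟩
      rcases hH with ⟨a, b, a1, _⟩ | ⟨a, b, a1, _⟩
      · have := hb1 _ a1.1 z l (fun hh => (hh.2 hzl) hzH)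
        omega
      · have := hb2 _ a1.1 z l (fun hh => hzl (hh.1 hzH))
        omega

end TorW
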