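import Pool.Agent.Lib.MP_05cdf2_gt.V6.VEdge
import Pool.Agent.Lib.MP_05cdf2_gt.H.WRem
import Pool.Agent.Lib.MP_05cdf2_gt.H.WTr
import Pool.Agent.Lib.MP_05cdf2_gt.N6.NFd

/-!
# The full relation on finitely many orbits of the stabiliser of a piece has a finite filling system
-/

namespace TorW

open TorM TorG TorL TorH TorN

variable {g : ℕ} [NeZero g]

omit [NeZero g] in
theorem cyc_tr2 {α : Type} [LinearOrder α] {x a b c : α} (h : Cyc x a b) (h' : Cyc x b c) : Cyc a b c := by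
  unfold Cyc at *
  rcases h with ⟨a1, a2⟩ | ⟨a1, a2⟩ | ⟨a1, a2⟩ <;> rcases h' with ⟨b1, b2⟩ | ⟨b1, b2⟩ | ⟨b1, b2⟩
  · exact Or.inl ⟨a2, b2⟩
  · exact absurd (a1.trans a2) (not_lt.2 (b1.trans b2).le)
  · exact Or.inr (Or.inr ⟨b1.trans a1, a2⟩)
  · exact absurd b1 (not_lt.2 a2.le)
  · exact Or.inl ⟨a1, b1⟩
  · exact absurd b2 (not_lt.2 a2.le)
  · exact absurd b1 (not_lt.2 a1.le)
  · exact Or.inr (Or.inl ⟨b1, b2.trans a2⟩)
  · exact absurd b2 (not_lt.2 a1.le)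

/-- related inside `S` -/
def Es (S : Set (F g)) (x y : F g) : Prop := x = y ∨ (x ∈ S ∧ y ∈ S)

theorem ne_Es {K : Subgroup (F g)} {S : Set (F g)} (hS : ∀ k ∈ K, ∀ x ∈ S, k * x ∈ S) : NE K (Es S) where
  refl x := Or.inl rfl
  symm {x y} h := by
    rcases h with h | h
    · exact Or.inl h.symm
    · exact Or.inr ⟨h.2, h.1⟩
  trans {x y z} h h' := by
    rcases h with rfl | h
    · exact h'
    · rcases h' with rfl | h'
      · exact Or.inr h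
      · exact Or.inr ⟨h.1, h'.2⟩
  smul k {x y} h := by
    rcases h with rfl | h
    · exact Or.inl rfl
    · exact Or.inr ⟨hS k k.2 _ h.1, hS k k.2 _ h.2⟩
  noncr {a b x y} h h' hc := by
    rcases h with rfl | h
    · exact ((cr_ne hc).2.2.2.2.2 rfl).elim
    · rcases h' with rfl | h'
      · exact ((cr_ne hc).1 rfl).elim
      · exact Or.inr ⟨h'.1, h.1⟩

variable {A E : Hf g} {k0 l0 : F g}

/-- the points of `S` and the points at changes of the position -/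
def Om (A E : Hf g) (k0 l0 : F g) (S : Set (F g)) : Set (F g) := {z | z ∈ S ∨ ∃ l : Ltr g, Pc A E k0 l0 z (z * le l)}

/-- neighbours behind a side -/
def Nb (A E : Hf g) (k0 l0 : F g) (S : Set (F g)) (z z' : F g) : Prop :=
  z ∈ Om A E k0 l0 S ∧ z' ∈ Om A E k0 l0 S ∧ z ≠ z' ∧ (∀ v ∈ Om A E k0 l0 S, ¬ Cyc z v z') ∧
    ∃ H, Hd A E k0 l0 H ∧ z ∈ H ∧ z' ∈ H

theorem om_mul {S : Set (F g)} (hS : ∀ k ∈ KP A E k0 l0, ∀ x ∈ S, k * x ∈ S) {k : F g}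
    (hk : k ∈ KP A E k0 l0) {z : F g} (h : z ∈ Om A E k0 l0 S) : k * z ∈ Om A E k0 l0 S := by
  rcases h with h | ⟨l, h⟩
  · exact Or.inl (hS k hk z h)
  · refine Or.inr ⟨l, ?_⟩
    rw [mul_assoc]
    exact h.mul hk

theorem om_end {S : Set (F g)} {z : F g} {l : Ltr g} (h : Pc A E k0 l0 z (z * le l)) :
    z * le l ∈ Om A E k0 l0 S := by
  refine Or.inr ⟨TorM.inv l, ?_⟩
  rw [le_inv, mul_inv_cancel_right]
  exact h.symm

theorem Nb.mul {S : Set (F g)} (hS : ∀ k ∈ KP A E k0 l0, ∀ x ∈ S, k * x ∈ S) {k : F g}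
    (hk : k ∈ KP A E k0 l0) {z z' : F g} (h : Nb A E k0 l0 S z z') : Nb A E k0 l0 S (k * z) (k * z') := by
  obtain ⟨h1, h2, h3, h4, H, h5, h6, h7⟩ := h
  refine ⟨om_mul hS hk h1, om_mul hS hk h2, fun hh => h3 (mul_left_cancel hh), fun v hv hc => ?_,
    tr k H, hd_tr hk h5, ?_, ?_⟩
  · have h8 := om_mul hS ((KP A E k0 l0).inv_mem hk) hv
    refine h4 _ h8 ?_
    rw [← cyc_mul k, mul_inv_cancel_left]
    exact hc
  · rw [mul_mem_tr]
    exact h6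
  · rw [mul_mem_tr]
    exact h7

theorem Nb.uniq {S : Set (F g)} {z z' z'' : F g} (h : Nb A E k0 l0 S z z') (h' : Nb A E k0 l0 S z z'') :
    z' = z'' := by
  by_contra hne
  rcases cyc_tot h.2.2.1 hne h'.2.2.1 with hc | hc
  · exact h'.2.2.2.1 _ h.2.1 hc
  · exact h.2.2.2.1 _ h'.2.1 hc

/-- oriented chords -/
def Chd (A E : Hf g) (k0 l0 : F g) (S : Set (F g)) (x y : F g) : Prop :=
  (∃ l : Ltr g, y = x * le l ∧ Pc A E k0 l0 x y) ∨ Nb A E k0 l0 S x y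

theorem Chd.mul {S : Set (F g)} (hS : ∀ k ∈ KP A E k0 l0, ∀ x ∈ S, k * x ∈ S) {k : F g}
    (hk : k ∈ KP A E k0 l0) {x y : F g} (h : Chd A E k0 l0 S x y) : Chd A E k0 l0 S (k * x) (k * y) := by
  rcases h with ⟨l, rfl, h⟩ | h
  · exact Or.inl ⟨l, by rw [mul_assoc], h.mul hk⟩
  · exact Or.inr (h.mul hS hk)

theorem Chd.om {S : Set (F g)} {x y : F g} (h : Chd A E k0 l0 S x y) :
    x ∈ Om A E k0 l0 S ∧ y ∈ Om A E k0 l0 S := by
  rcases h with ⟨l, rfl, h⟩ | h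
  · exact ⟨Or.inr ⟨l, h⟩, om_end h⟩
  · exact ⟨h.1, h.2.1⟩

theorem nb_nocr {S : Set (F g)} {x y z w : F g} (h : Nb A E k0 l0 S x y) (hz : z ∈ Om A E k0 l0 S)
    (hw : w ∈ Om A E k0 l0 S) : ¬ Cr x y z w := by
  rintro (hc | hc)
  · exact h.2.2.2.1 _ hz hc.1
  · exact h.2.2.2.1 _ hw hc.1

/-- chords do not cross -/
theorem chd_nocr {S : Set (F g)} {x y z w : F g} (h : Chd A E k0 l0 S x y) (h' : Chd A E k0 l0 S z w) :
    ¬ Cr x y z w := by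
  rcases h with ⟨l, rfl, h⟩ | h
  · rcases h' with ⟨m, rfl, h'⟩ | h'
    · exact letter_nocr x l m z
    · intro hc
      exact nb_nocr h' (Or.inr ⟨l, h⟩) (om_end h) (cr_comm.1 hc)
  · exact nb_nocr h h'.om.1 h'.om.2

theorem fo_om (hAE : A ≤ E) {D0 : Set (F g)} (hD0 : Ln A.E D0) (h0 : Adj A.E D0 k0 l0) {S : Set (F g)}
    (hSf : FO (KP A E k0 l0) (· ∈ S)) : FO (KP A E k0 l0) (· ∈ Om A E k0 l0 S) := by
  have h1 := FO.fin (K := KP A E k0 l0) (Set.finite_univ (α := Ltr g))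
    (Z := fun l z => Pc A E k0 l0 z (z * le l)) fun l _ => fo_edge hAE hD0 h0 l
  refine FO.sub ?_ (hSf.or h1)
  rintro z (hz | ⟨l, hz⟩)
  · exact Or.inl hz
  · exact Or.inr ⟨l, Set.mem_univ _, hz⟩

/-- the arcs are finite in number -/
theorem arcs_fin (hAE : A ≤ E) {D0 : Set (F g)} (hD0 : Ln A.E D0) (h0 : Adj A.E D0 k0 l0) {S : Set (F g)}
    (hS : ∀ k ∈ KP A E k0 l0, ∀ x ∈ S, k * x ∈ S) (hSf : FO (KP A E k0 l0) (· ∈ S)) :
    {a : Arc (KP A E k0 l0) (F g) | ∃ x y, Chd A E k0 l0 S x y ∧ a = arc (KP A E k0 l0) x y}.Finite := by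
  classical
  choose Q hQ using fun l => fo_edge hAE hD0 h0 l
  obtain ⟨Q', hQ'⟩ := fo_om hAE hD0 h0 hSf
  have f1 : (⋃ l : Ltr g, (fun q => arc (KP A E k0 l0) q (q * le l)) '' (Q l : Set (F g))).Finite :=
    Set.finite_iUnion fun l => (Q l).finite_toSet.image _
  have f2 : (⋃ q ∈ (Q' : Set (F g)), {a : Arc (KP A E k0 l0) (F g) | ∃ y, Nb A E k0 l0 S q y ∧
      a = arc (KP A E k0 l0) q y}).Finite := by
    refine Q'.finite_toSet.biUnion fun q _ => Set.Subsingleton.finite ?_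
    rintro a ⟨y, hy, rfl⟩ b ⟨y', hy', rfl⟩
    rw [hy.uniq hy']
  refine (f1.union f2).subset ?_
  rintro a ⟨x, y, h | h, rfl⟩
  · left
    obtain ⟨l, rfl, h⟩ := h
    obtain ⟨q, hq, k, hk, e⟩ := hQ l x h
    refine Set.mem_iUnion.2 ⟨l, q, hq, ?_⟩
    have := arc_smul (K := KP A E k0 l0) ⟨k, hk⟩ q (q * le l)
    show arc (KP A E k0 l0) q (q * le l) = arc (KP A E k0 l0) x (x * le l)
    rw [← this, csF_smul, csF_smul]
    show arc (KP A E k0 l0) (k * q) (k * (q * le l)) = _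
    rw [← mul_assoc, e]
  · right
    obtain ⟨q, hq, k, hk, e⟩ := hQ' x h.1
    refine Set.mem_iUnion₂.2 ⟨q, hq, k⁻¹ * y, ?_, ?_⟩
    · have := h.mul hS ((KP A E k0 l0).inv_mem hk)
      rw [← e, inv_mul_cancel_left] at this
      exact this
    · have := arc_smul (K := KP A E k0 l0) ⟨k, hk⟩ q (k⁻¹ * y)
      rw [← this, csF_smul, csF_smul]
      show _ = arc (KP A E k0 l0) (k * q) (k * (k⁻¹ * y))
      rw [mul_inv_cancel_left, e]

/-- finitely many points of `Om` between two points behind a side -/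
theorem betw_fin (hAE : A ≤ E) {D0 : Set (F g)} (hD0 : Ln A.E D0) (h0 : Adj A.E D0 k0 l0) {S : Set (F g)}
    (hSf : FO (KP A E k0 l0) (· ∈ S)) {H : Set (F g)} (hH : Hd A E k0 l0 H) (a b : F g) :
    {v | v ∈ Om A E k0 l0 S ∧ LtD H a v ∧ LtD H v b}.Finite := by
  obtain ⟨Q, hQ⟩ := fo_om hAE hD0 h0 hSf
  choose w hw using fun q => other_pos hAE hD0 h0 q
  have f : (⋃ q ∈ (Q : Set (F g)), {z | z * (q⁻¹ * w q) ∉ H ∧ LtD H a z ∧ LtD H z b}).Finite :=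
    Q.finite_toSet.biUnion fun q _ => fin_int (hd_kcut hH).wcut _
  refine f.subset ?_
  rintro v ⟨h1, h2, h3⟩
  obtain ⟨q, hq, k, hk, e⟩ := hQ v h1
  refine Set.mem_iUnion₂.2 ⟨q, hq, ?_, h2, h3⟩
  intro h4
  have e2 : v * (q⁻¹ * w q) = k * w q := by rw [← e]; group
  rw [e2] at h4
  have hk' := (KP A E k0 l0).inv_mem hk
  refine hw q (tr k⁻¹ H) (hd_tr hk' hH) ⟨?_, ?_⟩
  · rw [mem_tr, _root_.inv_inv, e]
    exact h2.2.1
  · rw [mem_tr, _root_.inv_inv]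
    exact h4

theorem side_gn (hAE : A ≤ E) {D0 : Set (F g)} (hD0 : Ln A.E D0) (h0 : Adj A.E D0 k0 l0) {S : Set (F g)}
    (hSf : FO (KP A E k0 l0) (· ∈ S)) {σ : Finset (Arc (KP A E k0 l0) (F g))}
    (hσ : ∀ x y, Chd A E k0 l0 S x y → arc (KP A E k0 l0) x y ∈ σ) {H : Set (F g)} (hH : Hd A E k0 l0 H) :
    ∀ (n : ℕ) (z z' : F g), {v | v ∈ Om A E k0 l0 S ∧ LtD H z v ∧ LtD H v z'}.ncard ≤ n →
      z ∈ Om A E k0 l0 S → z' ∈ Om A E k0 l0 S → LtD H z z' → Gn σ z z' := by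
  have hW := (hd_kcut hH).wcut
  intro n
  induction n with
  | zero =>
    intro z z' hn hz hz' hlt
    refine Gn.one (hσ _ _ (Or.inr ⟨hz, hz', hlt.2.2.1, ?_, H, hH, hlt.1, hlt.2.1⟩))
    intro v hv hc
    have hvH : v ∈ H := by
      by_contra h
      exact cyc_as hc (hlt.2.2.2 v h)
    obtain ⟨c, hcH⟩ := hW.ne'
    have h1 := hlt.2.2.2 c hcH
    have h2 : Cyc z v c := cyc_tr hc h1
    have h3 : Cyc v z' c := cyc_tr2 hc h1
    have hmem : v ∈ {v | v ∈ Om A E k0 l0 S ∧ LtD H z v ∧ LtD H v z'} :=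
      ⟨hv, ltD_of hW hlt.1 hvH hcH h2, ltD_of hW hvH hlt.2.1 hcH h3⟩
    have hempty := (Set.ncard_eq_zero (betw_fin hAE hD0 h0 hSf hH z z')).1 (by omega)
    rw [hempty] at hmem
    exact hmem
  | succ n ih =>
    intro z z' hn hz hz' hlt
    by_cases hne : ∃ v, v ∈ Om A E k0 l0 S ∧ LtD H z v ∧ LtD H v z'
    · obtain ⟨v, hv, h1, h2⟩ := hne
      have fin := betw_fin hAE hD0 h0 hSf hH z z'
      have c1 : {u | u ∈ Om A E k0 l0 S ∧ LtD H z u ∧ LtD H u v}.ncard ≤ n := by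
        have h5 : {u | u ∈ Om A E k0 l0 S ∧ LtD H z u ∧ LtD H u v} ⊂
            {v | v ∈ Om A E k0 l0 S ∧ LtD H z v ∧ LtD H v z'} := by
          refine ⟨fun u hu => ⟨hu.1, hu.2.1, hu.2.2.trans hW h2⟩, fun h => ?_⟩
          exact LtD.irrefl (h (show v ∈ _ from ⟨hv, h1, h2⟩)).2.2
        have := Set.ncard_lt_ncard h5 fin
        omega
      have c2 : {u | u ∈ Om A E k0 l0 S ∧ LtD H v u ∧ LtD H u z'}.ncard ≤ n := by
        have h5 : {u | u ∈ Om A E k0 l0 S ∧ LtD H v u ∧ LtD H u z'} ⊂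
            {v | v ∈ Om A E k0 l0 S ∧ LtD H z v ∧ LtD H v z'} := by
          refine ⟨fun u hu => ⟨hu.1, h1.trans hW hu.2.1, hu.2.2⟩, fun h => ?_⟩
          exact LtD.irrefl (h (show v ∈ _ from ⟨hv, h1, h2⟩)).2.1
        have := Set.ncard_lt_ncard h5 fin
        omega
      exact (ih z v c1 hz hv h1).trans (ih v z' c2 hv hz' h2)
    · refine ih z z' ?_ hz hz' hlt
      have : {v | v ∈ Om A E k0 l0 S ∧ LtD H z v ∧ LtD H v z'} = ∅ :=
        Set.eq_empty_iff_forall_notMem.2 fun v hv => hne ⟨v, hv⟩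
      rw [this, Set.ncard_empty]
      omega

theorem side_gn' (hAE : A ≤ E) {D0 : Set (F g)} (hD0 : Ln A.E D0) (h0 : Adj A.E D0 k0 l0) {S : Set (F g)}
    (hSf : FO (KP A E k0 l0) (· ∈ S)) {σ : Finset (Arc (KP A E k0 l0) (F g))}
    (hσ : ∀ x y, Chd A E k0 l0 S x y → arc (KP A E k0 l0) x y ∈ σ) {H : Set (F g)} (hH : Hd A E k0 l0 H)
    {z z' : F g} (hz : z ∈ Om A E k0 l0 S) (hz' : z' ∈ Om A E k0 l0 S) (h1 : z ∈ H) (h2 : z' ∈ H) :
    Gn σ z z' := by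
  rcases ltD_trichotomy (hd_kcut hH).wcut h1 h2 with h | h | h
  · exact side_gn hAE hD0 h0 hSf hσ hH _ z z' le_rfl hz hz' h
  · rw [h]
    exact Relation.ReflTransGen.refl
  · exact (side_gn hAE hD0 h0 hSf hσ hH _ z' z le_rfl hz' hz h).symm

theorem path_gn (hAE : A ≤ E) {D0 : Set (F g)} (hD0 : Ln A.E D0) (h0 : Adj A.E D0 k0 l0) {S : Set (F g)}
    (hSf : FO (KP A E k0 l0) (· ∈ S)) {σ : Finset (Arc (KP A E k0 l0) (F g))}
    (hσ : ∀ x y, Chd A E k0 l0 S x y → arc (KP A E k0 l0) x y ∈ σ) : ∀ (L : List (Ltr g)) (z x : F g),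
      z ∈ Om A E k0 l0 S → (x = z ∨ ∃ H, Hd A E k0 l0 H ∧ z ∈ H ∧ x ∈ H) →
      x * FreeGroup.mk L ∈ Om A E k0 l0 S → Gn σ z (x * FreeGroup.mk L) := by
  have same : ∀ z x : F g, z ∈ Om A E k0 l0 S → x ∈ Om A E k0 l0 S →
      (x = z ∨ ∃ H, Hd A E k0 l0 H ∧ z ∈ H ∧ x ∈ H) → Gn σ z x := by
    rintro z x hz hx (h | ⟨H, hH, h1, h2⟩)
    · rw [h]
      exact Relation.ReflTransGen.refl
    · exact side_gn' hAE hD0 h0 hSf hσ hH hz hx h1 h2
  intro L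
  induction L with
  | nil =>
    intro z x hz h hx
    have e : (FreeGroup.mk [] : F g) = 1 := rfl
    rw [e, mul_one] at hx ⊢
    exact same z x hz hx h
  | cons l L ih =>
    intro z x hz h hx
    rw [mk_cons', ← mul_assoc] at hx ⊢
    by_cases hp : Pc A E k0 l0 x (x * le l)
    · have hx1 : x ∈ Om A E k0 l0 S := Or.inr ⟨l, hp⟩
      have h1 : Gn σ x (x * le l) := Gn.one (hσ _ _ (Or.inl ⟨l, rfl, hp⟩))
      exact ((same z x hz hx1 h).trans h1).trans (ih _ _ (om_end hp) (Or.inl rfl) hx)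
    · unfold Pc at hp
      have hp' : ∃ H, Hd A E k0 l0 H ∧ x ∈ H ∧ x * le l ∈ H := by
        by_contra hcon
        exact hp fun H hH hh => hcon ⟨H, hH, hh.1, hh.2⟩
      obtain ⟨H', hH', h3, h4⟩ := hp'
      refine ih z _ hz (Or.inr ?_) hx
      rcases h with h | ⟨H, hH, h1, h2⟩
      · exact ⟨H', hH', by rw [← h]; exact h3, h4⟩
      · have e := hd_uniq hAE hH hH' h2 h3
        exact ⟨H', hH', by rw [← e]; exact h1, h4⟩

/-- the full relation on `Om` -/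
theorem fill_om (hAE : A ≤ E) {D0 : Set (F g)} (hD0 : Ln A.E D0) (h0 : Adj A.E D0 k0 l0) {S : Set (F g)}
    (hS : ∀ k ∈ KP A E k0 l0, ∀ x ∈ S, k * x ∈ S) (hSf : FO (KP A E k0 l0) (· ∈ S)) :
    ∃ σ : Finset (Arc (KP A E k0 l0) (F g)), Sy (CE (Es (Om A E k0 l0 S))) σ ∧ Fi (Es (Om A E k0 l0 S)) σ := by
  have hfin := arcs_fin hAE hD0 h0 hS hSf
  have hNE : NE (KP A E k0 l0) (Es (Om A E k0 l0 S)) := ne_Es fun k hk x hx => om_mul hS hk hx
  refine ⟨hfin.toFinset, ?_, ?_⟩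
  · intro a ha b hb
    rw [Set.Finite.mem_toFinset] at ha hb
    obtain ⟨x, y, h1, rfl⟩ := ha
    obtain ⟨z, w, h2, rfl⟩ := hb
    refine ⟨?_, (in_iff hNE).2 (Or.inr h1.om), (in_iff hNE).2 (Or.inr h2.om)⟩
    rw [co_iff]
    intro z' w' he hc
    rw [arc_eq] at he
    obtain ⟨k, ⟨e1, e2⟩ | ⟨e1, e2⟩⟩ := he
    · rw [csF_smul] at e1 e2
      have h3 := h2.mul hS ((KP A E k0 l0).inv_mem k.2)
      rw [← e1, ← e2, inv_mul_cancel_left, inv_mul_cancel_left] at h3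
      exact chd_nocr h1 h3 hc
    · rw [csF_smul] at e1 e2
      have h3 := h2.mul hS ((KP A E k0 l0).inv_mem k.2)
      rw [← e1, ← e2, inv_mul_cancel_left, inv_mul_cancel_left] at h3
      exact chd_nocr h1 h3 (cr_swap2.1 hc)
  · rintro x y (rfl | ⟨hx, hy⟩)
    · exact Relation.ReflTransGen.refl
    · have h1 := path_gn hAE hD0 h0 hSf (σ := hfin.toFinset)
        (fun a b hab => (Set.Finite.mem_toFinset _).2 ⟨a, b, hab, rfl⟩) (x⁻¹ * y).toWord x x hx (Or.inl rfl)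
      rw [FreeGroup.mk_toWord, mul_inv_cancel_left] at h1
      exact h1 hy

/-- **the full relation on finitely many orbits has a finite filling system** -/
theorem fill_S (hAE : A ≤ E) {D0 : Set (F g)} (hD0 : Ln A.E D0) (h0 : Adj A.E D0 k0 l0) {S : Set (F g)}
    (hS : ∀ k ∈ KP A E k0 l0, ∀ x ∈ S, k * x ∈ S) (hSf : FO (KP A E k0 l0) (· ∈ S)) :
    ∃ σ : Finset (Arc (KP A E k0 l0) (F g)), Sy (CE (Es S)) σ ∧ Fi (Es S) σ := by
  classical
  obtain ⟨σ, h1, h2⟩ := fill_om hAE hD0 h0 hS hSf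
  obtain ⟨Q, hQ⟩ := fo_om hAE hD0 h0 hSf
  have hNE : NE (KP A E k0 l0) (Es (Om A E k0 l0 S)) := ne_Es fun k hk x hx => om_mul hS hk hx
  obtain ⟨-, σ', h3, h4⟩ := rem_fin (ntF (KP A E k0 l0)) hNE h1 h2 (Q.filter fun q => q ∉ S)
  have key : EP (KP A E k0 l0) (Es (Om A E k0 l0 S)) (Q.filter fun q => q ∉ S) = Es S := by
    have out : ∀ x ∈ S, ∀ p ∈ Q.filter (fun q => q ∉ S), ¬ Ob (KP A E k0 l0) p x := by
      rintro x hx p hp ⟨k, hk⟩
      refine (Finset.mem_filter.1 hp).2 ?_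
      have := hS k⁻¹ ((KP A E k0 l0).inv_mem k.2) x hx
      rw [← hk, csF_smul, inv_mul_cancel_left] at this
      exact this
    have inn : ∀ x ∈ Om A E k0 l0 S, (∀ p ∈ Q.filter (fun q => q ∉ S), ¬ Ob (KP A E k0 l0) p x) → x ∈ S := by
      intro x hx h
      obtain ⟨q, hq, k, hk, e⟩ := hQ x hx
      by_contra hxS
      have hqS : q ∉ S := fun hh => hxS (by rw [← e]; exact hS k hk q hh)
      exact h q (Finset.mem_filter.2 ⟨hq, hqS⟩) ⟨⟨k, hk⟩, by rw [csF_smul]; exact e⟩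
    funext x y
    refine propext ⟨?_, ?_⟩
    · rintro (h | ⟨h | h, h5, h6⟩)
      · exact Or.inl h
      · exact Or.inl h
      · exact Or.inr ⟨inn x h.1 h5, inn y h.2 h6⟩
    · rintro (h | ⟨h5, h6⟩)
      · exact Or.inl h
      · exact Or.inr ⟨Or.inr ⟨Or.inl h5, Or.inl h6⟩, out x h5, out y h6⟩
  rw [key] at h3 h4
  exact ⟨σ', h3, h4⟩

end TorW
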