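import Pool.Agent.Lib.MP_05cdf2_gt.L6.Pc
import Pool.Agent.Lib.MP_05cdf2_gt.H.WFace

/-!
# The sides of a piece

`A ≤ E`, `k0` low, `l0` high. `KP A E k0 l0`: the stabiliser of the piece. `Hd A E k0 l0 H`: the points behind a bottom or
a top of the piece.
-/

namespace TorW

open TorM TorG TorL TorH

variable {g : ℕ} [NeZero g]

/-- the stabiliser of a piece -/
def KP (A E : Hf g) (k0 l0 : F g) : Subgroup (F g) where
  carrier := {k | ph k = 0 ∧ A.E.S l0 (k * l0) ∧ E.E.S k0 (k * k0)}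
  one_mem' := by
    refine ⟨ph_one, ?_, ?_⟩
    · rw [one_mul]
      exact GP.refl _
    · rw [one_mul]
      exact GP.refl _
  mul_mem' {a b} ha hb := by
    refine ⟨by rw [ph_mul, ha.1, hb.1, add_zero], ?_, ?_⟩
    · rw [mul_assoc]
      exact GP.trans ha.2.1 ((A.S_mul ha.1).2 hb.2.1)
    · rw [mul_assoc]
      exact GP.trans ha.2.2 ((E.S_mul ha.1).2 hb.2.2)
  inv_mem' {a} ha := by
    have h1 : ph a⁻¹ = 0 := by rw [ph_inv, ha.1, neg_zero]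
    refine ⟨h1, ?_, ?_⟩
    · have := (A.S_mul h1).2 ha.2.1
      rw [inv_mul_cancel_left] at this
      exact GP.symm this
    · have := (E.S_mul h1).2 ha.2.2
      rw [inv_mul_cancel_left] at this
      exact GP.symm this

theorem mem_KP {A E : Hf g} {k0 l0 k : F g} :
    k ∈ KP A E k0 l0 ↔ ph k = 0 ∧ A.E.S l0 (k * l0) ∧ E.E.S k0 (k * k0) := Iff.rfl

/-- bottoms -/
def Bt (A E : Hf g) (k0 l0 : F g) (D : Set (F g)) : Prop :=
  ∃ k l, Ln A.E D ∧ Adj A.E D k l ∧ E.E.S k k0 ∧ A.E.S l l0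

/-- tops -/
def Tp (A E : Hf g) (k0 l0 : F g) (G : Set (F g)) : Prop :=
  ∃ k l, Ln E.E G ∧ Adj E.E G k l ∧ E.E.S k k0 ∧ A.E.S l l0

/-- the sides -/
def Hd (A E : Hf g) (k0 l0 : F g) (H : Set (F g)) : Prop := Bt A E k0 l0 Hᶜ ∨ Tp A E k0 l0 H

variable {A E : Hf g} {k0 l0 : F g}

theorem hd_pos (hAE : A ≤ E) {D0 : Set (F g)} (hD0 : Ln A.E D0) (h0 : Adj A.E D0 k0 l0) (x : F g) :
    (E.E.S x k0 ∧ A.E.S x l0) ∨ ∃ H, Hd A E k0 l0 H ∧ x ∈ H := by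
  rcases pos_piece A.kg E.kg hAE hD0 h0 x with h | ⟨D, k, l, h1, h2, h3, h4, h5⟩ | ⟨G, k, l, h1, h2, h3, h4, h5⟩
  · exact Or.inl h
  · exact Or.inr ⟨Dᶜ, Or.inl ⟨k, l, by rw [compl_compl]; exact h1, by rw [compl_compl]; exact h2, h3, h4⟩, h5⟩
  · exact Or.inr ⟨G, Or.inr ⟨k, l, h1, h2, h3, h4⟩, h5⟩

theorem bt_tr {D : Set (F g)} {k : F g} (hk : k ∈ KP A E k0 l0) (h : Bt A E k0 l0 D) :
    Bt A E k0 l0 (tr k D) := by
  obtain ⟨a, b, h1, h2, h3, h4⟩ := h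
  exact ⟨k * a, k * b, (A.kg.ln_tr hk.1).2 h1, A.kg.adj_tr hk.1 h2,
    GP.trans ((E.S_mul hk.1).2 h3) (GP.symm hk.2.2), GP.trans ((A.S_mul hk.1).2 h4) (GP.symm hk.2.1)⟩

theorem tp_tr {D : Set (F g)} {k : F g} (hk : k ∈ KP A E k0 l0) (h : Tp A E k0 l0 D) :
    Tp A E k0 l0 (tr k D) := by
  obtain ⟨a, b, h1, h2, h3, h4⟩ := h
  exact ⟨k * a, k * b, (E.kg.ln_tr hk.1).2 h1, E.kg.adj_tr hk.1 h2,
    GP.trans ((E.S_mul hk.1).2 h3) (GP.symm hk.2.2), GP.trans ((A.S_mul hk.1).2 h4) (GP.symm hk.2.1)⟩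

theorem hd_tr {H : Set (F g)} {k : F g} (hk : k ∈ KP A E k0 l0) (h : Hd A E k0 l0 H) :
    Hd A E k0 l0 (tr k H) := by
  rcases h with h | h
  · left
    rw [← tr_compl]
    exact bt_tr hk h
  · exact Or.inr (tp_tr hk h)

theorem hd_kcut {H : Set (F g)} (h : Hd A E k0 l0 H) : KCut H := by
  rcases h with ⟨k, l, h1, _⟩ | ⟨k, l, h1, _⟩
  · have := (A.kg.kcut h1.1).compl
    rwa [compl_compl] at this
  · exact E.kg.kcut h1.1

/-- two bottoms cover everything -/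
theorem bt_bt {D D' : Set (F g)} (h : Bt A E k0 l0 D) (h' : Bt A E k0 l0 D') (hne : D ≠ D') (x : F g) :
    x ∈ D ∨ x ∈ D' := by
  obtain ⟨k, l, h1, h2, h3, h4⟩ := h
  obtain ⟨k', l', h1', h2', h3', h4'⟩ := h'
  have a1 := ln_only A.lf h1 h2 h1' (Ne.symm hne)
  have a2 := ln_only A.lf h1' h2' h1 hne
  have hll : A.E.S l l' := GP.trans h4 (GP.symm h4')
  have b1 : l ∈ D' := (h1'.1.sat _ _ hll).2 h2'.inn
  have b2 : l' ∈ D := (h1.1.sat _ _ hll).1 h2.inn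
  have b3 : k ∈ D' := a1.2 b1
  have b4 : k' ∈ D := a2.2 b2
  rcases nest_sat A.lf h1.1 h1'.1 with hn | hn | hn | hn
  · exact (h2'.out (hn b4)).elim
  · exact (h2.out (hn b3)).elim
  · exact (hn l ⟨h2.inn, b1⟩).elim
  · exact hn x

/-- two tops are disjoint -/
theorem tp_tp {D D' : Set (F g)} (h : Tp A E k0 l0 D) (h' : Tp A E k0 l0 D') (hne : D ≠ D') (x : F g) :
    ¬ (x ∈ D ∧ x ∈ D') := by
  obtain ⟨k, l, h1, h2, h3, h4⟩ := h
  obtain ⟨k', l', h1', h2', h3', h4'⟩ := h'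
  have a1 := ln_only E.lf h1 h2 h1' (Ne.symm hne)
  have a2 := ln_only E.lf h1' h2' h1 hne
  have hkk : E.E.S k k' := GP.trans h3 (GP.symm h3')
  have b1 : k ∉ D' := fun hh => h2'.out ((h1'.1.sat _ _ hkk).1 hh)
  have b2 : k' ∉ D := fun hh => h2.out ((h1.1.sat _ _ hkk).2 hh)
  have b3 : l ∉ D' := fun hh => b1 (a1.2 hh)
  have b4 : l' ∉ D := fun hh => b2 (a2.2 hh)
  rcases nest_sat E.lf h1.1 h1'.1 with hn | hn | hn | hn
  · exact (b3 (hn h2.inn)).elim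
  · exact (b4 (hn h2'.inn)).elim
  · exact hn x
  · rcases hn k with hh | hh
    · exact (h2.out hh).elim
    · exact (b1 hh).elim

/-- a top is contained in a bottom -/
theorem tp_bt (hAE : A ≤ E) {D G : Set (F g)} (h : Bt A E k0 l0 D) (h' : Tp A E k0 l0 G) : G ⊆ D := by
  obtain ⟨k, l, h1, h2, h3, h4⟩ := h
  obtain ⟨k', l', h1', h2', h3', h4'⟩ := h'
  have hkP := (ln_adj_mem A.lf h1 h2).1
  have b1 : k ∉ G := fun hh => h2'.out ((h1'.1.sat _ _ (GP.trans h3 (GP.symm h3'))).1 hh)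
  have b2 : l' ∈ D := (h1.1.sat _ _ (GP.trans h4 (GP.symm h4'))).1 h2.inn
  rcases nest_of_le A.lf hAE h1.1 h1'.1 with hn | hn | hn | hn
  · intro w hw
    by_contra hwD
    have o := (A.kg.orb_out h1.1 h2).mono hAE hkP
    have hW := (A.kg.wcut h1.1).compl
    obtain ⟨n, m, hcr⟩ := cross_orbit hW (u := k) (x := l) (y := w) h2.out hwD (fun hh => hh h2.inn)
    have hg : ∀ n : ℤ, gn Dᶜ ^ n * k ∉ G := by
      intro n hh
      have h5 : E.E.S k (gn Dᶜ ^ n * k) := ((orbS_compl (A.kg.wcut h1.1)).2 o) n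
      exact b1 ((h1'.1.sat _ _ h5).2 hh)
    exact h1'.1.cvx l (hn h2.inn) w hw _ (hg n) _ (hg m) (cr_comm.1 hcr)
  · exact hn
  · exact (hn l' ⟨b2, h2'.inn⟩).elim
  · rcases hn k with hh | hh
    · exact (h2.out hh).elim
    · exact (b1 hh).elim

/-- the sides are disjoint -/
theorem hd_uniq (hAE : A ≤ E) {H H' : Set (F g)} (h : Hd A E k0 l0 H) (h' : Hd A E k0 l0 H') {x : F g}
    (hx : x ∈ H) (hx' : x ∈ H') : H = H' := by
  by_contra hne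
  rcases h with h | h <;> rcases h' with h' | h'
  · rcases bt_bt h h' (fun hh => hne (compl_injective hh)) x with h1 | h1
    · exact h1 hx
    · exact h1 hx'
  · exact tp_bt hAE h h' hx' hx
  · exact tp_bt hAE h' h hx hx'
  · exact tp_tp h h' hne x ⟨hx, hx'⟩

/-- interior points are behind no side -/
theorem int_notMem {H : Set (F g)} (h : Hd A E k0 l0 H) {x : F g} (h1 : E.E.S x k0) (h2 : A.E.S x l0) : x ∉ H := by
  intro hx
  rcases h with ⟨k, l, a1, a2, a3, a4⟩ | ⟨k, l, a1, a2, a3, a4⟩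
  · exact ((a1.1.sat _ _ (GP.trans a4 (GP.symm h2))).1 a2.inn) hx
  · exact a2.out ((a1.1.sat _ _ (GP.trans a3 (GP.symm h1))).2 hx)

/-- every point has a point in another position -/
theorem other_pos (hAE : A ≤ E) {D0 : Set (F g)} (hD0 : Ln A.E D0) (h0 : Adj A.E D0 k0 l0) (x : F g) :
    ∃ w, ∀ H, Hd A E k0 l0 H → ¬ (x ∈ H ∧ w ∈ H) := by
  have hB : Hd A E k0 l0 D0ᶜ := Or.inl ⟨k0, l0, by rw [compl_compl]; exact hD0, by rw [compl_compl]; exact h0,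
    GP.refl _, GP.refl _⟩
  by_cases hx : x ∈ D0
  · refine ⟨k0, fun H hH h => ?_⟩
    have := hd_uniq hAE hH hB h.2 h0.out
    rw [this] at h
    exact h.1 hx
  · refine ⟨l0, fun H hH h => ?_⟩
    have := hd_uniq hAE hH hB h.1 hx
    rw [this] at h
    exact h.2 h0.inn

end TorW
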